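import Mathlib

namespace Pool.Helper793.Kak5

open Filter

/-- Kakutani's 5x+1 map -/
def C (n : ℕ) : ℕ := if n % 2 = 0 then n / 2 else if n % 3 = 0 then n / 3 else 5 * n + 1

lemma five_steps {x v : ℕ} (h : 13 * x + 7 = 24 * v) :
    ∃ x' : ℕ, C^[5] x = x' ∧ 13 * x' + 7 = 50 * v := by
  -- x odd, x = 2 mod 3
  have hx2 : x % 2 = 1 := by omega
  have hx3 : x % 3 = 2 := by omega
  have e1 : C x = 5 * x + 1 := by
    unfold C
    rw [if_neg (by omega), if_neg (by omega)]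
  obtain ⟨y, hy⟩ : ∃ y, 5 * x + 1 = 2 * y := ⟨(5 * x + 1) / 2, by omega⟩
  have e2 : C (5 * x + 1) = y := by
    unfold C
    rw [if_pos (by omega)]
    omega
  have hyv : 13 * y + 11 = 60 * v := by omega
  have e3 : C y = 5 * y + 1 := by
    unfold C
    rw [if_neg (by omega), if_neg (by omega)]
  obtain ⟨z, hz⟩ : ∃ z, 5 * y + 1 = 2 * z := ⟨(5 * y + 1) / 2, by omega⟩
  have e4 : C (5 * y + 1) = z := by
    unfold C
    rw [if_pos (by omega)]
    omega
  have hzv : 13 * z + 21 = 150 * v := by omega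
  obtain ⟨x', hx'⟩ : ∃ x', z = 3 * x' := ⟨z / 3, by omega⟩
  have e5 : C z = x' := by
    unfold C
    rw [if_neg (by omega), if_pos (by omega)]
    omega
  refine ⟨x', ?_, by omega⟩
  show C (C (C (C (C x)))) = x'
  rw [e1, e2, e3, e4, e5]

lemma steps (k j : ℕ) (hj : j ≤ k) (n : ℕ) (hn : 13 * n + 7 = 20 * 12 ^ k) :
    ∃ x : ℕ, C^[5 * j] n = x ∧ 13 * x + 7 = 20 * 12 ^ (k - j) * 25 ^ j := by
  induction j with
  | zero => exact ⟨n, rfl, by simpa using hn⟩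
  | succ j ih =>
    obtain ⟨x, hx, hx2⟩ := ih (by omega)
    have h1 : k - j = (k - (j + 1)) + 1 := by omega
    have h2 : 13 * x + 7 = 24 * (10 * 12 ^ (k - (j + 1)) * 25 ^ j) := by
      rw [hx2, h1, pow_succ]
      ring
    obtain ⟨x', h3, h4⟩ := five_steps h2
    refine ⟨x', ?_, ?_⟩
    · have h5 : 5 * (j + 1) = 5 + 5 * j := by ring
      rw [h5, Function.iterate_add_apply, hx, h3]
    · rw [h4, pow_succ]
      ring

lemma start (m : ℕ) : ∃ n : ℕ, 13 * n + 7 = 20 * 12 ^ (2 * m) := by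
  induction m with
  | zero => exact ⟨1, rfl⟩
  | succ m ih =>
    obtain ⟨n, hn⟩ := ih
    refine ⟨144 * n + 77, ?_⟩
    have : 2 * (m + 1) = 2 * m + 2 := by ring
    rw [this, pow_add, ← mul_assoc, ← hn]
    ring

/-- the exponent -/
theorem main (ρ : ℝ) (hρ : ρ < Real.log 25 / Real.log 12) :
    ∀ N : ℕ, ∃ n : ℕ, N < n ∧ ∃ i : ℕ, (n : ℝ) ^ ρ < ((C^[i] n : ℕ) : ℝ) := by
  intro N
  have hl12 : 0 < Real.log 12 := Real.log_pos (by norm_num)
  have hl25 : 0 < Real.log 25 := Real.log_pos (by norm_num)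
  -- wlog ρ ≥ 0
  set r : ℝ := max ρ 0 with hr
  have hr0 : 0 ≤ r := le_max_right _ _
  have hrlt : r < Real.log 25 / Real.log 12 := max_lt hρ (by positivity)
  -- 12^r < 25
  have h1 : (12 : ℝ) ^ r < 25 := by
    rw [← Real.exp_log (show (0 : ℝ) < 25 by norm_num), Real.rpow_def_of_pos (by norm_num)]
    apply Real.exp_lt_exp.2
    rw [lt_div_iff₀ hl12] at hrlt
    linarith
  -- growth of (25 / 12^r)^(2m)
  have h12r : (0 : ℝ) < (12 : ℝ) ^ r := Real.rpow_pos_of_pos (by norm_num) _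
  have h2 : 1 < 25 / (12 : ℝ) ^ r := by rwa [one_lt_div h12r]
  have h3 : Tendsto (fun k : ℕ => (25 / (12 : ℝ) ^ r) ^ k) atTop atTop :=
    tendsto_pow_atTop_atTop_of_one_lt h2
  obtain ⟨K, hK⟩ := (h3.eventually_gt_atTop ((2 : ℝ) ^ r * 2)).exists_forall_of_atTop
  set m := K + N + 1 with hm
  obtain ⟨n, hn⟩ := start m
  obtain ⟨x, hx, hx2⟩ := steps (2 * m) (2 * m) le_rfl n hn
  rw [Nat.sub_self, pow_zero, mul_one] at hx2
  have hKm : K ≤ 2 * m := by omega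
  have h4 := hK (2 * m) hKm
  have hnN : N < n := by
    have h5 : 2 * m < 12 ^ (2 * m) := Nat.lt_pow_self (by norm_num)
    omega
  refine ⟨n, hnN, 5 * (2 * m), ?_⟩
  rw [hx]
  have hn' : 13 * (n : ℝ) + 7 = 20 * 12 ^ (2 * m) := by exact_mod_cast hn
  have hx' : 13 * (x : ℝ) + 7 = 20 * 25 ^ (2 * m) := by exact_mod_cast hx2
  have hn1 : (1 : ℝ) ≤ n := by
    have : 1 ≤ n := by omega
    exact_mod_cast this
  have hnle : (n : ℝ) ≤ 2 * 12 ^ (2 * m) := by
    have : (0 : ℝ) < 12 ^ (2 * m) := by positivity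
    linarith
  have h25 : (1 : ℝ) ≤ 25 ^ (2 * m) := one_le_pow₀ (by norm_num)
  have hxge : (25 : ℝ) ^ (2 * m) / 2 ≤ x := by linarith
  calc (n : ℝ) ^ ρ ≤ (n : ℝ) ^ r := Real.rpow_le_rpow_of_exponent_le hn1 (le_max_left _ _)
    _ ≤ (2 * 12 ^ (2 * m)) ^ r := Real.rpow_le_rpow (by linarith) hnle hr0
    _ = 2 ^ r * ((12 : ℝ) ^ r) ^ (2 * m) := by
        rw [Real.mul_rpow (by norm_num) (by positivity), ← Real.rpow_natCast,
          ← Real.rpow_natCast, ← Real.rpow_mul (by norm_num), ← Real.rpow_mul (by norm_num),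
          mul_comm ((2 * m : ℕ) : ℝ) r]
    _ < 25 ^ (2 * m) / 2 := by
        rw [div_pow, lt_div_iff₀ (by positivity)] at h4
        linarith
    _ ≤ x := hxge

end Pool.Helper793.Kak5
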